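import Pool.Agent.Run7.h146.Met.I1

/-!
# Piece SEQ of MP_dd21b1_pr (helper146): the deterministic sequence lemma
-/

set_option autoImplicit false

open Finset

namespace Run7.h331.Met

/-- summability of a nonnegative antitone sequence from `T (n+1) ≤ x^n + T (n/2 - k) / 4` -/
lemma sum_half (T : ℕ → ℝ) (k : ℕ) (hT : Antitone T) (M : ℕ) :
    ∑ n ∈ range (2 * k + 2 * M), T (n / 2 - k) ≤ 2 * k * T 0 + 2 * ∑ m ∈ range M, T m := by
  rw [Finset.sum_range_add]
  have h1 : ∑ n ∈ range (2 * k), T (n / 2 - k) ≤ 2 * k * T 0 := by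
    calc ∑ n ∈ range (2 * k), T (n / 2 - k) ≤ ∑ n ∈ range (2 * k), T 0 :=
          Finset.sum_le_sum fun n _ => hT (Nat.zero_le _)
      _ = 2 * k * T 0 := by simp
  have h2 : ∑ n ∈ range (2 * M), T ((2 * k + n) / 2 - k) = 2 * ∑ m ∈ range M, T m := by
    have h3 : ∀ n, (2 * k + n) / 2 - k = n / 2 := by intro n; omega
    simp only [h3]
    induction M with
    | zero => simp
    | succ M ih =>
      rw [show 2 * (M + 1) = 2 * M + 1 + 1 by ring, Finset.sum_range_succ, Finset.sum_range_succ, ih,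
        Finset.sum_range_succ]
      have h4 : (2 * M) / 2 = M := by omega
      have h5 : (2 * M + 1) / 2 = M := by omega
      rw [h4, h5]; ring
  linarith

lemma summable_T (T : ℕ → ℝ) (k n₀ : ℕ) (hT0 : ∀ n, 0 ≤ T n) (hT : Antitone T)
    (h : ∀ n, n₀ ≤ n → T (n + 1) ≤ (4 / 5 : ℝ) ^ n + 1 / 4 * T (n / 2 - k)) :
    Summable (fun n => T (n / 2 - k)) := by
  have hgeo : ∀ N : ℕ, ∑ n ∈ range N, (4 / 5 : ℝ) ^ n ≤ 5 := by
    intro N
    have h1 : Summable (fun n : ℕ => (4 / 5 : ℝ) ^ n) :=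
      summable_geometric_of_lt_one (by norm_num) (by norm_num)
    calc ∑ n ∈ range N, (4 / 5 : ℝ) ^ n ≤ ∑' n : ℕ, (4 / 5 : ℝ) ^ n :=
          h1.sum_le_tsum _ fun n _ => by positivity
      _ = 5 := by
          rw [tsum_geometric_of_lt_one (by norm_num) (by norm_num)]; norm_num
  have hb : ∀ n, T (n + 1) ≤ ((4 / 5 : ℝ) ^ n + 1 / 4 * T (n / 2 - k)) +
      (if n < n₀ then T 0 else 0) := by
    intro n
    split_ifs with hn
    · have h1 : T (n + 1) ≤ T 0 := hT (Nat.zero_le _)
      have h2 : (0 : ℝ) ≤ (4 / 5 : ℝ) ^ n := by positivity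
      have h3 := hT0 (n / 2 - k)
      linarith
    · have := h n (by omega)
      linarith
  have hc : ∀ N : ℕ, ∑ n ∈ range N, (if n < n₀ then T 0 else 0) ≤ n₀ * T 0 := by
    intro N
    rw [← Finset.sum_filter]
    calc ∑ n ∈ (range N).filter (fun n => n < n₀), T 0 ≤ ∑ n ∈ range n₀, T 0 := by
          apply Finset.sum_le_sum_of_subset_of_nonneg
          · intro x hx; simp only [Finset.mem_filter] at hx; simpa using hx.2
          · intro _ _ _; exact hT0 0
      _ = n₀ * T 0 := by simp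
  have key : ∀ M : ℕ, ∑ m ∈ range M, T m ≤ 2 * (T 0 + 5 + n₀ * T 0 + k * T 0) := by
    intro M
    have h1 : ∑ m ∈ range M, T m ≤ ∑ m ∈ range (2 * k + 2 * M + 1), T m := by
      apply Finset.sum_le_sum_of_subset_of_nonneg
      · intro x hx; simp only [Finset.mem_range] at hx ⊢; omega
      · intro _ _ _; exact hT0 _
    rw [Finset.sum_range_succ'] at h1
    have h2 : ∑ n ∈ range (2 * k + 2 * M), T (n + 1) ≤
        ∑ n ∈ range (2 * k + 2 * M), (((4 / 5 : ℝ) ^ n + 1 / 4 * T (n / 2 - k)) +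
          (if n < n₀ then T 0 else 0)) := Finset.sum_le_sum fun n _ => hb n
    rw [Finset.sum_add_distrib, Finset.sum_add_distrib, ← Finset.mul_sum] at h2
    have h3 := sum_half T k hT M
    have h4 := hgeo (2 * k + 2 * M)
    have h5 := hc (2 * k + 2 * M)
    have h6 : 0 ≤ (k : ℝ) * T 0 := mul_nonneg (Nat.cast_nonneg _) (hT0 0)
    linarith
  apply summable_of_sum_range_le (c := 2 * k * T 0 + 2 * (2 * (T 0 + 5 + n₀ * T 0 + k * T 0)))
  · intro n; exact hT0 _
  · intro n
    calc ∑ i ∈ range n, T (i / 2 - k) ≤ ∑ i ∈ range (2 * k + 2 * n), T (i / 2 - k) := by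
          apply Finset.sum_le_sum_of_subset_of_nonneg
          · intro x hx; simp only [Finset.mem_range] at hx ⊢; omega
          · intro _ _ _; exact hT0 _
      _ ≤ _ := by
          have := sum_half T k hT n
          have := key n
          linarith

/-- the abstract lemma: `g`, `q`, `u`, `H` -/
lemma core (g u H q : ℕ → ℝ) (k : ℕ) (C : ℝ) (hC : 1 ≤ C) (hg0 : ∀ j, 0 ≤ g j)
    (hH : ∀ j, H j = (∑ i ∈ Finset.Icc (j / 2 - k : ℕ) j, g i ^ 2) + (1 / 2 : ℝ) ^ j)
    (hrec : ∀ j, k ≤ j → 3 / 2 * g j - 2 * C * H j ≤ g (j + 1))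
    (hu0 : ∀ j, 0 ≤ u j) (hu : Summable u)
    (hq : ∀ j, q j = u j * (g j + H j))
    (hstep : ∀ j, k ≤ j → g (j + 1) ^ 2 ≤ 4 * q j + 1 / 256 * g (j - k) ^ 2) :
    Summable g := by
  -- elementary facts
  have hHpos : ∀ j, 0 < H j := by
    intro j; rw [hH j]
    have : 0 ≤ ∑ i ∈ Finset.Icc (j / 2 - k : ℕ) j, g i ^ 2 := Finset.sum_nonneg fun _ _ => sq_nonneg _
    have h2 : (0 : ℝ) < (1 / 2 : ℝ) ^ j := by positivity
    linarith
  have hq0 : ∀ j, 0 ≤ q j := by
    intro j; rw [hq j]; exact mul_nonneg (hu0 j) (by have := hg0 j; have := hHpos j; linarith)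
  -- tails of `u`
  have hUtail : ∀ δ : ℝ, 0 < δ → ∃ n₀ : ℕ, ∀ n, n₀ ≤ n → ∑' j, u (j + n) ≤ δ := by
    intro δ hδ
    have h1 := tendsto_sum_nat_add u
    have h2 := (h1.eventually (ge_mem_nhds hδ))
    obtain ⟨n₀, h3⟩ := Filter.eventually_atTop.mp h2
    exact ⟨n₀, fun n hn => h3 n hn⟩
  -- Step 0: `g ^ 2` is summable
  have hg2 : Summable (fun j => g j ^ 2) := by
    obtain ⟨n₁, hn₁⟩ := hUtail (1 / 32) (by norm_num)
    set n := max n₁ k with hn
    have hUn := hn₁ n (le_max_left _ _)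
    have hkn : k ≤ n := le_max_right _ _
    have hbound : ∀ N : ℕ, ∑ l ∈ range N, g l ^ 2 ≤ 2 * (∑ l ∈ range (n + 1), g l ^ 2 + 1) := by
      intro N
      set S := ∑ l ∈ range N, g l ^ 2 with hS
      have hS0 : 0 ≤ S := Finset.sum_nonneg fun _ _ => sq_nonneg _
      have hqj : ∀ j, j < N → q j ≤ u j * (2 + 2 * S) := by
        intro j hj
        rw [hq j]
        apply mul_le_mul_of_nonneg_left _ (hu0 j)
        have h1 : g j ^ 2 ≤ S := by
          rw [hS]
          exact Finset.single_le_sum (f := fun l => g l ^ 2) (fun _ _ => sq_nonneg _)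
            (Finset.mem_range.mpr hj)
        have h2 : H j ≤ S + 1 := by
          rw [hH j]
          have h3 : ∑ i ∈ Finset.Icc (j / 2 - k : ℕ) j, g i ^ 2 ≤ S := by
            rw [hS]
            apply Finset.sum_le_sum_of_subset_of_nonneg
            · intro x hx; simp only [Finset.mem_Icc, Finset.mem_range] at hx ⊢; omega
            · intro _ _ _; exact sq_nonneg _
          have h4 : (1 / 2 : ℝ) ^ j ≤ 1 := pow_le_one₀ (by norm_num) (by norm_num)
          linarith
        nlinarith [sq_nonneg (g j - 1)]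
      -- sum over `Ico n N`
      have hsumu : ∑ j ∈ Finset.Ico n N, u j ≤ 1 / 32 := by
        rw [Finset.sum_Ico_eq_sum_range]
        calc ∑ i ∈ range (N - n), u (n + i) ≤ ∑' j, u (n + j) := by
              apply Summable.sum_le_tsum _ (fun i _ => hu0 _)
              exact (summable_nat_add_iff n).mpr hu |>.congr fun i => by rw [add_comm]
          _ = ∑' j, u (j + n) := by congr 1; funext j; rw [add_comm]
          _ ≤ 1 / 32 := hUn
      have hsumq : ∑ j ∈ Finset.Ico n N, q j ≤ 1 / 32 * (2 + 2 * S) := by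
        calc ∑ j ∈ Finset.Ico n N, q j ≤ ∑ j ∈ Finset.Ico n N, u j * (2 + 2 * S) :=
              Finset.sum_le_sum fun j hj => hqj j (Finset.mem_Ico.mp hj).2
          _ = (∑ j ∈ Finset.Ico n N, u j) * (2 + 2 * S) := by rw [Finset.sum_mul]
          _ ≤ 1 / 32 * (2 + 2 * S) := mul_le_mul_of_nonneg_right hsumu (by linarith)
      have hshift : ∑ j ∈ Finset.Ico n N, g (j - k) ^ 2 ≤ S := by
        rw [hS]
        have h1 : ∑ j ∈ Finset.Ico n N, g (j - k) ^ 2 =
            ∑ l ∈ (Finset.Ico n N).image (fun j => j - k), g l ^ 2 := by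
          rw [Finset.sum_image]
          intro a ha b hb hab
          simp only [Finset.coe_Ico, Set.mem_Ico] at ha hb
          simp only at hab
          omega
        rw [h1]
        apply Finset.sum_le_sum_of_subset_of_nonneg
        · intro x hx
          simp only [Finset.mem_image, Finset.mem_Ico, Finset.mem_range] at hx ⊢
          obtain ⟨a, ha, rfl⟩ := hx
          omega
        · intro _ _ _; exact sq_nonneg _
      have hsumg : ∑ j ∈ Finset.Ico n N, g (j + 1) ^ 2 ≤ 4 * (1 / 32 * (2 + 2 * S)) + 1 / 256 * S := by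
        calc ∑ j ∈ Finset.Ico n N, g (j + 1) ^ 2
            ≤ ∑ j ∈ Finset.Ico n N, (4 * q j + 1 / 256 * g (j - k) ^ 2) :=
              Finset.sum_le_sum fun j hj => hstep j (hkn.trans (Finset.mem_Ico.mp hj).1)
          _ = 4 * ∑ j ∈ Finset.Ico n N, q j + 1 / 256 * ∑ j ∈ Finset.Ico n N, g (j - k) ^ 2 := by
              rw [Finset.sum_add_distrib, ← Finset.mul_sum, ← Finset.mul_sum]
          _ ≤ _ := by linarith
      have hcov : S ≤ ∑ l ∈ range (n + 1), g l ^ 2 + ∑ j ∈ Finset.Ico n N, g (j + 1) ^ 2 := by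
        have h1 : ∑ j ∈ Finset.Ico n N, g (j + 1) ^ 2 =
            ∑ l ∈ (Finset.Ico n N).image (fun j => j + 1), g l ^ 2 := by
          rw [Finset.sum_image]
          intro a _ b _ hab
          simpa using hab
        rw [h1, hS]
        calc ∑ l ∈ range N, g l ^ 2 ≤
            ∑ l ∈ range (n + 1) ∪ (Finset.Ico n N).image (fun j => j + 1), g l ^ 2 := by
              apply Finset.sum_le_sum_of_subset_of_nonneg
              · intro x hx
                simp only [Finset.mem_union, Finset.mem_image, Finset.mem_Ico, Finset.mem_range] at hx ⊢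
                by_cases hx2 : x < n + 1
                · exact Or.inl hx2
                · exact Or.inr ⟨x - 1, by omega, by omega⟩
              · intro _ _ _; exact sq_nonneg _
          _ ≤ _ := by
              rw [← Finset.sum_union_inter]
              have : 0 ≤ ∑ l ∈ range (n + 1) ∩ (Finset.Ico n N).image (fun j => j + 1), g l ^ 2 :=
                Finset.sum_nonneg fun _ _ => sq_nonneg _
              linarith
      linarith
    exact summable_of_sum_range_le (fun _ => sq_nonneg _) hbound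
  -- the tails `T`
  set T : ℕ → ℝ := fun n => ∑' l, g (l + n) ^ 2 with hTdef
  have hsum_shift : ∀ n, Summable (fun l => g (l + n) ^ 2) := fun n =>
    (summable_nat_add_iff (f := fun j => g j ^ 2) n).mpr hg2
  have hT0 : ∀ n, 0 ≤ T n := fun n => tsum_nonneg fun _ => sq_nonneg _
  have hTsucc : ∀ n, T n = g n ^ 2 + T (n + 1) := by
    intro n
    have h := (hsum_shift n).tsum_eq_zero_add
    simp only [hTdef]
    rw [h]
    congr 1
    · simp
    · congr 1; funext l; congr 2; ring
  have hTanti : Antitone T := by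
    apply antitone_nat_of_succ_le
    intro n
    rw [hTsucc n]
    have := sq_nonneg (g n)
    linarith
  have hgT : ∀ n, g n ^ 2 ≤ T n := by
    intro n
    rw [hTsucc n]
    have := hT0 (n + 1)
    linarith
  have hIccT : ∀ a b, ∑ i ∈ Finset.Icc a b, g i ^ 2 ≤ T a := by
    intro a b
    calc ∑ i ∈ Finset.Icc a b, g i ^ 2 = ∑ i ∈ Finset.Ico a (b + 1), g i ^ 2 := by
          congr 1
      _ = ∑ i ∈ range (b + 1 - a), g (a + i) ^ 2 := by rw [Finset.sum_Ico_eq_sum_range]
      _ = ∑ i ∈ range (b + 1 - a), g (i + a) ^ 2 := by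
          apply Finset.sum_congr rfl; intro i _; rw [add_comm]
      _ ≤ T a := (hsum_shift a).sum_le_tsum _ fun _ _ => sq_nonneg _
  have hHT : ∀ j, H j ≤ T (j / 2 - k) + (1 / 2 : ℝ) ^ j := by
    intro j; rw [hH j]; have := hIccT (j / 2 - k) j; linarith
  have hgB : ∀ n, g n ≤ 1 + T 0 := by
    intro n
    have h1 : g n ^ 2 ≤ T 0 := (hgT n).trans (hTanti (Nat.zero_le _))
    nlinarith [sq_nonneg (g n - 1)]
  set B : ℝ := 1 + T 0 with hB
  have hB1 : 1 ≤ B := by have := hT0 0; linarith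
  -- growth alternative
  have halt : ∀ j, k ≤ j → ∀ m : ℕ, (g j ≤ 8 * C * (T (j / 2 - k) + (1 / 2 : ℝ) ^ j)) ∨
      (5 / 4 : ℝ) ^ m * g j ≤ g (j + m) := by
    intro j hj m
    induction m with
    | zero => right; simp
    | succ m ih =>
      rcases ih with ih | ih
      · left; exact ih
      · by_cases hc : g (j + m) ≤ 8 * C * H (j + m)
        · left
          have h1 : g j ≤ g (j + m) := by
            refine le_trans ?_ ih
            have : (1 : ℝ) ≤ (5 / 4 : ℝ) ^ m := one_le_pow₀ (by norm_num)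
            nlinarith [hg0 j]
          have h2 : H (j + m) ≤ T (j / 2 - k) + (1 / 2 : ℝ) ^ j := by
            refine (hHT (j + m)).trans ?_
            have h3 : T ((j + m) / 2 - k) ≤ T (j / 2 - k) := hTanti (by omega)
            have h4 : (1 / 2 : ℝ) ^ (j + m) ≤ (1 / 2 : ℝ) ^ j :=
              pow_le_pow_of_le_one (by norm_num) (by norm_num) (by omega)
            linarith
          calc g j ≤ g (j + m) := h1
            _ ≤ 8 * C * H (j + m) := hc
            _ ≤ _ := mul_le_mul_of_nonneg_left h2 (by linarith)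
        · right
          push Not at hc
          have h1 := hrec (j + m) (by omega)
          have h2 : 5 / 4 * g (j + m) ≤ g (j + m + 1) := by linarith
          calc (5 / 4 : ℝ) ^ (m + 1) * g j = 5 / 4 * ((5 / 4 : ℝ) ^ m * g j) := by ring
            _ ≤ 5 / 4 * g (j + m) := by linarith
            _ ≤ g (j + (m + 1)) := h2
  have hgj : ∀ j, k ≤ j → g j ≤ B * (4 / 5 : ℝ) ^ j + 8 * C * (T (j / 2 - k) + (1 / 2 : ℝ) ^ j) := by
    intro j hj
    rcases halt j hj j with h | h
    · have : 0 ≤ B * (4 / 5 : ℝ) ^ j := by positivity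
      linarith
    · have h1 := hgB (j + j)
      have h2 : (5 / 4 : ℝ) ^ j * g j ≤ B := h.trans h1
      have h3 : g j ≤ B * (4 / 5 : ℝ) ^ j := by
        calc g j = ((4 / 5 : ℝ) ^ j * (5 / 4 : ℝ) ^ j) * g j := by
              rw [← mul_pow]; norm_num
          _ = (4 / 5 : ℝ) ^ j * ((5 / 4 : ℝ) ^ j * g j) := by ring
          _ ≤ (4 / 5 : ℝ) ^ j * B := mul_le_mul_of_nonneg_left h2 (by positivity)
          _ = _ := by ring
      have h4 : 0 ≤ 8 * C * (T (j / 2 - k) + (1 / 2 : ℝ) ^ j) := by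
        have := hT0 (j / 2 - k)
        have : (0 : ℝ) ≤ (1 / 2 : ℝ) ^ j := by positivity
        apply mul_nonneg (by linarith) (by linarith)
      linarith
  set A : ℝ := B + 8 * C + 1 with hA
  have hApos : 0 < A := by linarith
  have hhalf : ∀ j : ℕ, (1 / 2 : ℝ) ^ j ≤ (4 / 5 : ℝ) ^ j := fun j =>
    pow_le_pow_left₀ (by norm_num) (by norm_num) j
  have hgH : ∀ j, k ≤ j → g j + H j ≤ A * ((4 / 5 : ℝ) ^ j + T (j / 2 - k)) := by
    intro j hj
    have h1 := hgj j hj
    have h2 := hHT j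
    have h3 := hhalf j
    have h4 := hT0 (j / 2 - k)
    have h5 : (0 : ℝ) ≤ (4 / 5 : ℝ) ^ j := by positivity
    have h6 : 8 * C * (1 / 2 : ℝ) ^ j ≤ 8 * C * (4 / 5 : ℝ) ^ j :=
      mul_le_mul_of_nonneg_left h3 (by linarith)
    have h7 : 0 ≤ B * T (j / 2 - k) := mul_nonneg (by linarith) h4
    rw [hA]
    nlinarith
  -- the recursion for `T`
  obtain ⟨n₁, hn₁⟩ := hUtail (1 / (32 * A)) (by positivity)
  set n₀ := max n₁ k with hn₀
  have hTrec : ∀ n, n₀ ≤ n → T (n + 1) ≤ (4 / 5 : ℝ) ^ n + 1 / 4 * T (n / 2 - k) := by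
    intro n hn
    have hkn : k ≤ n := (le_max_right _ _).trans hn
    have hUn := hn₁ n ((le_max_left _ _).trans hn)
    set Y : ℝ := (4 / 5 : ℝ) ^ n + T (n / 2 - k) with hY
    have hY0 : 0 ≤ Y := by
      have := hT0 (n / 2 - k)
      have : (0 : ℝ) ≤ (4 / 5 : ℝ) ^ n := by positivity
      linarith
    have hqj : ∀ j, q (j + n) ≤ u (j + n) * (A * Y) := by
      intro j
      rw [hq (j + n)]
      apply mul_le_mul_of_nonneg_left _ (hu0 _)
      refine (hgH (j + n) (by omega)).trans ?_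
      apply mul_le_mul_of_nonneg_left _ hApos.le
      have h1 : T ((j + n) / 2 - k) ≤ T (n / 2 - k) := hTanti (by omega)
      have h2 : (4 / 5 : ℝ) ^ (j + n) ≤ (4 / 5 : ℝ) ^ n :=
        pow_le_pow_of_le_one (by norm_num) (by norm_num) (by omega)
      linarith
    have hus : Summable (fun j => u (j + n)) := (summable_nat_add_iff n).mpr hu
    have hus2 : Summable (fun j => u (j + n) * (A * Y)) := hus.mul_right _
    have hqs : Summable (fun j => q (j + n)) :=
      Summable.of_nonneg_of_le (fun j => hq0 _) hqj hus2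
    have hqsum : ∑' j, q (j + n) ≤ 1 / 32 * Y := by
      calc ∑' j, q (j + n) ≤ ∑' j, u (j + n) * (A * Y) := hqs.tsum_le_tsum hqj hus2
        _ = (∑' j, u (j + n)) * (A * Y) := tsum_mul_right
        _ ≤ 1 / (32 * A) * (A * Y) := mul_le_mul_of_nonneg_right hUn (by positivity)
        _ = 1 / 32 * Y := by field_simp
    have hgs : Summable (fun j => g (j + n - k) ^ 2) := by
      have := hsum_shift (n - k)
      exact this.congr fun j => by rw [Nat.add_sub_assoc hkn]
    have hgsum : ∑' j, g (j + n - k) ^ 2 ≤ T (n / 2 - k) := by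
      have h1 : ∑' j, g (j + n - k) ^ 2 = T (n - k) := by
        simp only [hTdef]
        congr 1; funext j; rw [Nat.add_sub_assoc hkn]
      rw [h1]
      exact hTanti (by omega)
    have h1 : T (n + 1) ≤ ∑' j, (4 * q (j + n) + 1 / 256 * g (j + n - k) ^ 2) := by
      have h2 : ∀ j, g (j + (n + 1)) ^ 2 ≤ 4 * q (j + n) + 1 / 256 * g (j + n - k) ^ 2 := by
        intro j
        exact hstep (j + n) (by omega)
      exact (hsum_shift (n + 1)).tsum_le_tsum h2 ((hqs.mul_left 4).add (hgs.mul_left (1 / 256)))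
    rw [((hqs.mul_left 4)).tsum_add (hgs.mul_left (1 / 256)), tsum_mul_left, tsum_mul_left] at h1
    have h3 := hT0 (n / 2 - k)
    have h4 : (0 : ℝ) ≤ (4 / 5 : ℝ) ^ n := by positivity
    linarith
  have hsT := summable_T T k n₀ hT0 hTanti hTrec
  have hgeo : Summable (fun n : ℕ => (4 / 5 : ℝ) ^ n) :=
    summable_geometric_of_lt_one (by norm_num) (by norm_num)
  have hfin : Summable (fun j => A * ((4 / 5 : ℝ) ^ j + T (j / 2 - k))) :=
    (hgeo.add hsT).mul_left A
  rw [← summable_nat_add_iff k]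
  refine Summable.of_nonneg_of_le (fun j => hg0 _) (fun j => ?_) ((summable_nat_add_iff k).mpr hfin)
  have := hgH (j + k) (by omega)
  have := hHpos (j + k)
  linarith

open Run7.h146.Met

theorem t_SEQ : S_SEQ := by
  intro P k C hP hP0 hP1 hC hrec hns hu
  apply hns
  set g : ℕ → ℝ := fun j => (2 : ℝ) ^ j * P j with hg
  set H : ℕ → ℝ := fun j => HH P k j with hHdef
  have hg0 : ∀ j, 0 ≤ g j := fun j => mul_nonneg (by positivity) (hP0 j)
  have hH : ∀ j, H j = (∑ i ∈ Finset.Icc (j / 2 - k : ℕ) j, g i ^ 2) + (1 / 2 : ℝ) ^ j :=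
    fun j => rfl
  have hHpos : ∀ j, 0 < H j := by
    intro j; rw [hH j]
    have : 0 ≤ ∑ i ∈ Finset.Icc (j / 2 - k : ℕ) j, g i ^ 2 := Finset.sum_nonneg fun _ _ => sq_nonneg _
    have h2 : (0 : ℝ) < (1 / 2 : ℝ) ^ j := by positivity
    linarith
  set u : ℕ → ℝ := fun j : ℕ => if k ≤ j ∧ P (j - k) ≤ 2 ^ (5 * (k + 1)) * P (j + 1) then
    g j ^ 2 / (g j + H j) else 0 with hudef
  have hgH0 : ∀ j, 0 < g j + H j := fun j => by have := hg0 j; have := hHpos j; linarith
  have hu0 : ∀ j, 0 ≤ u j := by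
    intro j
    simp only [hudef]
    split_ifs
    · exact div_nonneg (sq_nonneg _) (hgH0 j).le
    · exact le_refl _
  refine Run7.h331.Met.core g u H (fun j => u j * (g j + H j)) k C hC hg0 hH ?_ hu0 hu
    (fun j => rfl) ?_
  · intro j hj
    have h1 := hrec j hj
    have h2 : (0 : ℝ) < 2 ^ (j + 1) := by positivity
    have h3 := mul_le_mul_of_nonneg_left h1 h2.le
    have h4 : (2 : ℝ) ^ (j + 1) * (3 / 4 * P j - C * (1 / 2) ^ j * HH P k j) =
        3 / 2 * g j - 2 * C * H j := by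
      have h5 : (2 : ℝ) ^ j * (1 / 2) ^ j = 1 := by rw [← mul_pow]; norm_num
      simp only [hg, hHdef]
      calc (2 : ℝ) ^ (j + 1) * (3 / 4 * P j - C * (1 / 2) ^ j * HH P k j)
          = 3 / 2 * (2 ^ j * P j) - 2 * C * ((2 : ℝ) ^ j * (1 / 2) ^ j) * HH P k j := by ring
        _ = _ := by rw [h5]; ring
    rw [h4] at h3
    exact h3
  · intro j hj
    by_cases hgood : P (j - k) ≤ 2 ^ (5 * (k + 1)) * P (j + 1)
    · have h1 : u j = g j ^ 2 / (g j + H j) := by
        simp only [hudef]; rw [if_pos ⟨hj, hgood⟩]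
      have h2 : u j * (g j + H j) = g j ^ 2 := by
        rw [h1]; exact div_mul_cancel₀ _ (hgH0 j).ne'
      have h3 : g (j + 1) ≤ 2 * g j := by
        simp only [hg]
        have := hP (Nat.le_succ j)
        calc (2 : ℝ) ^ (j + 1) * P (j + 1) ≤ (2 : ℝ) ^ (j + 1) * P j :=
              mul_le_mul_of_nonneg_left this (by positivity)
          _ = 2 * (2 ^ j * P j) := by ring
      have h4 : g (j + 1) ^ 2 ≤ (2 * g j) ^ 2 := pow_le_pow_left₀ (hg0 _) h3 2
      have h5 : 0 ≤ g (j - k) ^ 2 := sq_nonneg _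
      show g (j + 1) ^ 2 ≤ 4 * (u j * (g j + H j)) + 1 / 256 * g (j - k) ^ 2
      rw [h2]
      nlinarith
    · push Not at hgood
      have h1 : u j = 0 := by
        simp only [hudef]; rw [if_neg]; intro h; exact absurd h.2 (not_le.mpr hgood)
      show g (j + 1) ^ 2 ≤ 4 * (u j * (g j + H j)) + 1 / 256 * g (j - k) ^ 2
      rw [h1]
      have h2 : 16 * g (j + 1) ≤ g (j - k) := by
        simp only [hg]
        have h3 : (2 : ℝ) ^ (j - k) * (2 ^ (5 * (k + 1)) * P (j + 1)) ≤ 2 ^ (j - k) * P (j - k) :=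
          mul_le_mul_of_nonneg_left hgood.le (by positivity)
        refine le_trans ?_ h3
        have h4 : (2 : ℝ) ^ (j - k) * (2 ^ (5 * (k + 1)) * P (j + 1)) =
            2 ^ (4 * k) * (16 * (2 ^ (j + 1) * P (j + 1))) := by
          have h5 : (2 : ℝ) ^ (j - k) * 2 ^ (5 * (k + 1)) = 2 ^ (4 * k) * 16 * 2 ^ (j + 1) := by
            rw [← pow_add, show (16 : ℝ) = 2 ^ 4 by norm_num, ← pow_add, ← pow_add]
            congr 1; omega
          rw [← mul_assoc, h5]; ring
        rw [h4]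
        have h6 : (1 : ℝ) ≤ 2 ^ (4 * k) := one_le_pow₀ (by norm_num)
        have h7 : 0 ≤ 16 * ((2 : ℝ) ^ (j + 1) * P (j + 1)) := by
          have := hP0 (j + 1); positivity
        nlinarith
      have h8 : (16 * g (j + 1)) ^ 2 ≤ g (j - k) ^ 2 := pow_le_pow_left₀ (by have := hg0 (j + 1); linarith) h2 2
      nlinarith

end Run7.h331.Met
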